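import Pool.Agent.Lib.MP_e1f7e2_al.FA.H41.PolyY

set_option autoImplicit false

/-!
Project FA (MP_e1f7e2_al): module MEM.
-/

open MulOpposite

namespace Pool.Agent.Lib.MP_e1f7e2_al.FA.H41

section

variable {K : Type*} [Field K]

theorem tn_one_one {n : ℕ} : tn (1 : A K n) 1 = 1 := by
  unfold tn inr
  simp

theorem evl2_one {n : ℕ} (hc : ChainFacts K n) (f g : A K n) :
    evl2 ![f, g] (1 : A2 K 2) = 1 := by
  have h := hc.e2tn f g 1 1
  rw [tn_one_one] at h
  rw [h]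
  unfold ev
  simp [tn_one_one]

/-- if `D_X P = 0` then `P` is a polynomial in `Y` -/
theorem poly_of_dX_zero (hc : ChainFacts K 2) (P : A K 2) (h : dX 0 P = 0) :
    ∃ R : Polynomial K, P = Polynomial.aeval (xx 1) R := by
  refine poly_of_words P fun u v => ?_
  have h1 := hc.cf 0 P u v
  rw [h] at h1
  simpa using h1.symm

/-- if `D_X P = c` then `P = c X + R(Y)` -/
theorem lin_of_dX_const (hc : ChainFacts K 2) (P : A K 2) (c : K) (h : dX 0 P = c • 1) :
    ∃ R : Polynomial K, P = c • xx 0 + Polynomial.aeval (xx 1) R := by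
  have h1 : dX 0 (P - c • xx 0) = 0 := by
    rw [sub_eq_add_neg, ← neg_smul, hc.add, hc.smul, hc.xx', h]
    simp
  obtain ⟨R, hR⟩ := poly_of_dX_zero hc _ h1
  exact ⟨R, by rw [← hR]; abel⟩

theorem ev_add {n : ℕ} (P Q : A K 2) (f g : A K n) : ev (P + Q) f g = ev P f g + ev Q f g := by
  unfold ev
  rw [map_add]

theorem ev_smul {n : ℕ} (c : K) (P : A K 2) (f g : A K n) : ev (c • P) f g = c • ev P f g := by
  unfold ev
  rw [map_smul]

theorem ev_mul {n : ℕ} (P Q : A K 2) (f g : A K n) : ev (P * Q) f g = ev P f g * ev Q f g := by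
  unfold ev
  rw [map_mul]

/-- module MEM -/
theorem mem (K : Type*) [Field K] (w : Fin 3 → ℝ) (_hw : Gen w) (_h1 : DegFacts K w)
    (h2 : DegbFacts K w) (h3 : ∀ n : ℕ, ChainFacts K n) (h4 : EFacts K w) : MemFacts K w where
  mem f g q hfg hq := by
    obtain ⟨P, rfl⟩ := ((h3 3).bmem f g q).1 hq
    by_cases hP : dX 0 P = 0
    · obtain ⟨R, rfl⟩ := poly_of_dX_zero (h3 2) P hP
      exact Or.inl ⟨R, ev_aeval f g R⟩
    · right
      rw [h4.v2 f g P hfg (fun h => hP (h4.inj2 f g _ hfg h))]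
      have := h2.nn (evl2 ![f, g] (dX 0 P))
      linarith
  lin f g q hfg hq hle := by
    obtain ⟨P, rfl⟩ := ((h3 3).bmem f g q).1 hq
    by_cases hP : dX 0 P = 0
    · obtain ⟨R, rfl⟩ := poly_of_dX_zero (h3 2) P hP
      exact ⟨0, R, by rw [ev_aeval, zero_smul, zero_add]⟩
    · rw [h4.v2 f g P hfg (fun h => hP (h4.inj2 f g _ hfg h))] at hle
      have h5 := h2.nn (evl2 ![f, g] (dX 0 P))
      obtain ⟨c, hc⟩ := h2.of_zero (evl2 ![f, g] (dX 0 P)) (by linarith)
      have h6 : evl2 ![f, g] (dX 0 P + (-c) • 1) = 0 := by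
        rw [(h3 3).e2add, (h3 3).e2smul, hc, evl2_one (h3 3)]
        simp
      have h7 := h4.inj2 f g _ hfg h6
      have h8 : dX 0 P = c • 1 := by
        rw [neg_smul, ← sub_eq_add_neg, sub_eq_zero] at h7
        exact h7
      obtain ⟨R, hR⟩ := lin_of_dX_const (h3 2) P c h8
      refine ⟨c, R, ?_⟩
      rw [hR, ev_add, ev_smul, ev_x, ev_aeval]

end

end Pool.Agent.Lib.MP_e1f7e2_al.FA.H41
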