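import Pool.Agent.Lib.MP_e1f7e2_al.FA.Iface2

set_option autoImplicit false

/-!
Project FA (MP_e1f7e2_al): module CASEA.
-/

open MulOpposite

namespace Pool.Agent.Lib.MP_e1f7e2_al.FA.H41

section

/-- module CASEA -/
theorem casea (K : Type*) [Field K] (w : Fin 3 → ℝ) (_hw : Gen w) (h1 : DtzStatement K)
    (h2 : FinhStatement K) (h3 : CmlStatement K) (h4 : TmovStatement K) (h5 : FintStatement K)
    (_h6 : FrFacts K w) (h7 : SpanFacts K) : CaseaStatement K := by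
  intro ψ τ H1 H2 H3 hτ hsp hd1 hd2
  have hz : Fr (ψ.symm (xx 0)) (ψ.symm (xx 1)) (ψ.symm (xx 2)) := ⟨ψ.symm, rfl, rfl, rfl⟩
  have hH1 := h1 (fun i => ψ.symm (xx i)) hz H1 hd1
  have hH2 := h1 (fun i => ψ.symm (xx i)) hz H2 hd2
  have hsp' : sp H3 H1 H2 = sp (ψ (τ (xx 0))) (ψ (τ (xx 1))) (ψ (τ (xx 2))) := by
    rw [← hsp, h7.scomm H3 H1 H2, h7.scomm' H1 H3 H2]
  obtain ⟨τ', hτ', e0, e1, e2⟩ := h4 ψ τ H3 H1 H2 0 hτ hsp' (Subalgebra.zero_mem _)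
  rw [add_zero] at e2
  have hfr : Fr H3 H1 H2 := ⟨τ'.trans ψ, e0, e1, e2⟩
  obtain ⟨⟨a, ha, q, hq, hH3⟩, hB⟩ := h2 H3 H1 H2 hfr hH1 hH2
  exact h5 ψ τ' H3 H1 H2 q a hτ' e0 e1 e2 (h3 H1 H2 hB) ha hq hH3

end

end Pool.Agent.Lib.MP_e1f7e2_al.FA.H41
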