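import Pool.Agent.Lib.MP_e1f7e2_al.FA.H41.Xe

set_option autoImplicit false

/-!
Project FA (MP_e1f7e2_al): elements of `K⟨X,Y⟩` with `D_X P = 1 ⊗ U + V ⊗ 1`.
-/

open MulOpposite

namespace Pool.Agent.Lib.MP_e1f7e2_al.FA.H41

section

variable {K : Type*} [Field K] {n : ℕ}

theorem inl_single (u : Wd n) (c : K) :
    inl (MonoidAlgebra.single u c : A K n) = MonoidAlgebra.single (u, 1) c := by
  have h : ∀ u : Wd n, FreeMonoid.lift
      (fun i => (MonoidAlgebra.single (FreeMonoid.of i, 1) 1 : A2 K n)) u =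
      MonoidAlgebra.single (u, 1) 1 := by
    intro u
    induction u using FreeMonoid.inductionOn' with
    | one => simp [MonoidAlgebra.one_def, Prod.one_eq_mk]
    | of_mul x u ih =>
      rw [map_mul, ih, FreeMonoid.lift_eval_of, MonoidAlgebra.single_mul_single]
      simp
  unfold inl evl
  rw [MonoidAlgebra.lift_single, h, MonoidAlgebra.smul_single, smul_eq_mul, mul_one]

theorem inr_single (u : Wd n) (c : K) :
    inr (MonoidAlgebra.single u c : A K n) = MonoidAlgebra.single (1, op u) c := by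
  have h : ∀ u : Wd n, FreeMonoid.lift
      (fun i => op (MonoidAlgebra.single (1, op (FreeMonoid.of i)) 1 : A2 K n)) u =
      op (MonoidAlgebra.single (1, op u) 1) := by
    intro u
    induction u using FreeMonoid.inductionOn' with
    | one =>
      rw [map_one, op_one, ← Prod.one_eq_mk, ← MonoidAlgebra.one_def, op_one]
    | of_mul x u ih =>
      rw [map_mul, ih, FreeMonoid.lift_eval_of, ← op_mul, MonoidAlgebra.single_mul_single]
      simp
  unfold inr inrop evl
  rw [MonoidAlgebra.lift_single, h, ← op_smul, unop_op, MonoidAlgebra.smul_single, smul_eq_mul,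
    mul_one]

theorem coeff_inl (f : A K n) (a b : Wd n) (hb : b ≠ 1) : (inl f).coeff (a, op b) = 0 := by
  classical
  rw [← MonoidAlgebra.sum_coeff_single f, Finsupp.sum, map_sum, MonoidAlgebra.coeff_sum,
    Finsupp.finsetSum_apply]
  refine Finset.sum_eq_zero fun u _ => ?_
  rw [inl_single, MonoidAlgebra.coeff_single, Finsupp.single_apply, if_neg]
  intro h
  apply hb
  have := congrArg (fun p => p.2.unop) h
  simpa using this.symm

theorem coeff_inr (f : A K n) (a b : Wd n) (ha : a ≠ 1) : (inr f).coeff (a, op b) = 0 := by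
  classical
  have h0 : inr f = ∑ u ∈ f.coeff.support, inr (MonoidAlgebra.single u (f.coeff u) : A K n) := by
    conv_lhs => rw [← MonoidAlgebra.sum_coeff_single f, Finsupp.sum]
    unfold inr
    rw [map_sum, Finset.unop_sum]
  rw [h0, MonoidAlgebra.coeff_sum, Finsupp.finsetSum_apply]
  refine Finset.sum_eq_zero fun u _ => ?_
  rw [inr_single, MonoidAlgebra.coeff_single, Finsupp.single_apply, if_neg]
  intro h
  apply ha
  have := congrArg (fun p => p.1) h
  simpa using this.symm

/-- words in which every letter `X` is the first or the last letter -/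
theorem word_form (W : Wd 2) (h : ∀ a b : Wd 2, W = a * FreeMonoid.of 0 * b → a = 1 ∨ b = 1) :
    (∃ j : ℕ, W = FreeMonoid.of 1 ^ j) ∨ (∃ j : ℕ, W = FreeMonoid.of 0 * FreeMonoid.of 1 ^ j) ∨
    (∃ j : ℕ, W = FreeMonoid.of 1 ^ j * FreeMonoid.of 0) ∨
    (∃ j : ℕ, W = FreeMonoid.of 0 * FreeMonoid.of 1 ^ j * FreeMonoid.of 0) := by
  have hne : ∀ a : Wd 2, FreeMonoid.of 0 * a ≠ 1 := by
    intro a ha
    have := congrArg (fun u : Wd 2 => u.toList.length) ha
    simp [FreeMonoid.toList_mul] at this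
  have hne' : ∀ a : Wd 2, a * FreeMonoid.of 0 ≠ 1 := by
    intro a ha
    have := congrArg (fun u : Wd 2 => u.toList.length) ha
    simp [FreeMonoid.toList_mul] at this
  have hXX : ∀ c : Wd 2, W = FreeMonoid.of 0 * c * FreeMonoid.of 0 →
      ∃ j : ℕ, W = FreeMonoid.of 0 * FreeMonoid.of 1 ^ j * FreeMonoid.of 0 := by
    intro c hW
    rcases word_cases c with ⟨a', b', hc⟩ | hc
    · exfalso
      rcases h (FreeMonoid.of 0 * a') (b' * FreeMonoid.of 0) (by rw [hW, hc]; simp [mul_assoc])
        with h1 | h1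
      · exact hne _ h1
      · exact hne' _ h1
    · exact ⟨c.toList.length, by rw [hW]; conv_lhs => rw [hc]⟩
  rcases word_cases W with ⟨a, b, hW⟩ | hW
  · rcases h a b hW with ha | hb
    · rw [ha, one_mul] at hW
      rcases word_cases b with ⟨a', b', hb⟩ | hb
      · rcases h (FreeMonoid.of 0 * a') b' (by rw [hW, hb]; simp [mul_assoc]) with h1 | h1
        · exact absurd h1 (hne _)
        · right; right; right
          refine hXX a' ?_
          rw [hW, hb, h1]
          simp [mul_assoc]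
      · right; left
        exact ⟨b.toList.length, by rw [hW]; conv_lhs => rw [hb]⟩
    · rw [hb, mul_one] at hW
      rcases word_cases a with ⟨a', b', ha⟩ | ha
      · rcases h a' (b' * FreeMonoid.of 0) (by rw [hW, ha]; simp [mul_assoc]) with h1 | h1
        · right; right; right
          refine hXX b' ?_
          rw [hW, ha, h1]
          simp [mul_assoc]
        · exact absurd h1 (hne' _)
      · right; right; left
        exact ⟨a.toList.length, by rw [hW]; conv_lhs => rw [ha]⟩
  · left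
    exact ⟨_, hW⟩

/-- `P = X Q1(Y) + Q2(Y) X + X Q3(Y) X + R(Y)` -/
def Form (P : A K 2) : Prop := ∃ Q1 Q2 Q3 R : Polynomial K,
  P = xx 0 * Polynomial.aeval (xx 1) Q1 + Polynomial.aeval (xx 1) Q2 * xx 0 +
    xx 0 * Polynomial.aeval (xx 1) Q3 * xx 0 + Polynomial.aeval (xx 1) R

theorem Form.add {P P' : A K 2} (h : Form P) (h' : Form P') : Form (P + P') := by
  obtain ⟨Q1, Q2, Q3, R, rfl⟩ := h
  obtain ⟨Q1', Q2', Q3', R', rfl⟩ := h'
  refine ⟨Q1 + Q1', Q2 + Q2', Q3 + Q3', R + R', ?_⟩
  simp only [map_add, mul_add, add_mul]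
  abel

theorem Form.zero : Form (0 : A K 2) := ⟨0, 0, 0, 0, by simp⟩

theorem aeval_mono (c : K) (j : ℕ) :
    Polynomial.aeval (xx 1 : A K 2) (Polynomial.C c * Polynomial.X ^ j) =
      MonoidAlgebra.single (FreeMonoid.of 1 ^ j) c := by
  rw [map_mul, Polynomial.aeval_C, map_pow, Polynomial.aeval_X, ← Algebra.smul_def, xx,
    MonoidAlgebra.single_pow, one_pow, MonoidAlgebra.smul_single, smul_eq_mul, mul_one]

theorem form_of_words (P : A K 2)
    (h : ∀ a b : Wd 2, a ≠ 1 → b ≠ 1 → P.coeff (a * FreeMonoid.of 0 * b) = 0) : Form P := by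
  rw [← MonoidAlgebra.sum_coeff_single P, Finsupp.sum]
  refine Finset.sum_induction _ Form (fun _ _ => Form.add) Form.zero fun W hW => ?_
  rw [Finsupp.mem_support_iff] at hW
  have h1 : ∀ a b : Wd 2, W = a * FreeMonoid.of 0 * b → a = 1 ∨ b = 1 := by
    intro a b hab
    by_contra hcon
    rw [not_or] at hcon
    exact hW (hab ▸ h a b hcon.1 hcon.2)
  rcases word_form W h1 with ⟨j, hj⟩ | ⟨j, hj⟩ | ⟨j, hj⟩ | ⟨j, hj⟩
  · refine ⟨0, 0, 0, Polynomial.C (P.coeff W) * Polynomial.X ^ j, ?_⟩
    rw [aeval_mono, ← hj]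
    simp
  · refine ⟨Polynomial.C (P.coeff W) * Polynomial.X ^ j, 0, 0, 0, ?_⟩
    rw [aeval_mono, xx, MonoidAlgebra.single_mul_single, ← hj]
    simp
  · refine ⟨0, Polynomial.C (P.coeff W) * Polynomial.X ^ j, 0, 0, ?_⟩
    rw [aeval_mono, xx, MonoidAlgebra.single_mul_single, ← hj]
    simp
  · refine ⟨0, 0, Polynomial.C (P.coeff W) * Polynomial.X ^ j, 0, ?_⟩
    rw [aeval_mono, xx, MonoidAlgebra.single_mul_single, MonoidAlgebra.single_mul_single, ← hj]
    simp

theorem ev_one (f g : A K n) : ev (1 : A K 2) f g = 1 := by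
  unfold ev
  rw [map_one]

theorem inr_one' : inr (1 : A K n) = 1 := by
  unfold inr
  simp

theorem tn_one_left (f : A K n) : tn 1 f = inr f := by
  unfold tn
  rw [map_one, one_mul]

theorem tn_one_right (f : A K n) : tn f 1 = inl f := by
  unfold tn
  rw [inr_one', mul_one]

theorem inr_add' (f g : A K n) : inr (f + g) = inr f + inr g := by
  unfold inr
  rw [map_add, unop_add]

theorem inr_smulc (c : K) (f : A K n) : inr (c • f) = c • inr f := by
  unfold inr
  rw [map_smul, unop_smul]

theorem inr_sumc {ι : Type*} (s : Finset ι) (f : ι → A K n) :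
    inr (∑ i ∈ s, f i) = ∑ i ∈ s, inr (f i) := by
  unfold inr
  rw [map_sum, Finset.unop_sum]

theorem inr_mul' (f g : A K n) : inr (f * g) = inr g * inr f := by
  unfold inr
  rw [map_mul, unop_mul]

theorem evl2_inr (hc : ChainFacts K n) (f g : A K n) (U : A K 2) :
    evl2 ![f, g] (inr U) = inr (ev U f g) := by
  rw [← tn_one_left, hc.e2tn]
  unfold ev
  rw [map_one, tn_one_left]

theorem evl2_inl (hc : ChainFacts K n) (f g : A K n) (U : A K 2) :
    evl2 ![f, g] (inl U) = inl (ev U f g) := by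
  rw [← tn_one_right, hc.e2tn]
  unfold ev
  rw [map_one, tn_one_right]

/-- if `D_X P = 1 ⊗ U + V ⊗ 1` then `P` has the special form -/
theorem form_of_dX (hc : ChainFacts K 2) (P U V : A K 2) (h : dX 0 P = inr U + inl V) :
    Form P := by
  refine form_of_words P fun a b ha hb => ?_
  rw [← hc.cf 0 P a b, h, MonoidAlgebra.coeff_add, Finsupp.add_apply, coeff_inr U a b ha,
    coeff_inl V a b hb, add_zero]

theorem dX_aeval (hc : ChainFacts K 2) (R : Polynomial K) :
    dX 0 (Polynomial.aeval (xx 1 : A K 2) R) = 0 := by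
  have hp : ∀ j : ℕ, dX 0 ((xx 1 : A K 2) ^ j) = 0 := by
    intro j
    induction j with
    | zero => rw [pow_zero, hc.one]
    | succ j ih =>
      rw [pow_succ, hc.mul, ih, hc.xx']
      simp
  induction R using Polynomial.induction_on' with
  | add p q hp hq => rw [map_add, hc.add, hp, hq, add_zero]
  | monomial k a =>
    rw [← Polynomial.C_mul_X_pow_eq_monomial, map_mul, Polynomial.aeval_C, map_pow,
      Polynomial.aeval_X, ← Algebra.smul_def, hc.smul, hp, smul_zero]

theorem dX_form (hc : ChainFacts K 2) (Q1 Q2 Q3 R : Polynomial K) :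
    dX 0 (xx 0 * Polynomial.aeval (xx 1) Q1 + Polynomial.aeval (xx 1) Q2 * xx 0 +
    xx 0 * Polynomial.aeval (xx 1) Q3 * xx 0 + Polynomial.aeval (xx 1 : A K 2) R) =
    inr (Polynomial.aeval (xx 1) Q1 + Polynomial.aeval (xx 1) Q3 * xx 0) +
      inl (Polynomial.aeval (xx 1) Q2 + xx 0 * Polynomial.aeval (xx 1) Q3) := by
  simp only [hc.add, hc.mul, dX_aeval hc, hc.xx', inr_add', inr_mul', map_add]
  simp only [if_true, mul_zero, mul_one, zero_add, add_zero]
  abel

end

end Pool.Agent.Lib.MP_e1f7e2_al.FA.H41
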