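import Pool.Agent.Lib.MP_e1f7e2_al.FA.Iface

set_option autoImplicit false

/-!
Project FA (MP_e1f7e2_al): module OR (orthogonal decomposition).
-/

open MulOpposite

namespace Pool.Agent.Lib.MP_e1f7e2_al.FA.H41

section

variable {K : Type*} [Field K] {n : ℕ}

theorem le_dgr {G : Type*} (ω : G → ℝ) (f : MonoidAlgebra K G) (u : G) (h : f.coeff u ≠ 0) :
    ω u ≤ dgr ω f := by
  have h1 : u ∈ f.coeff.support := Finsupp.mem_support_iff.2 h
  unfold dgr
  rw [dif_pos ⟨u, h1⟩]
  exact Finset.le_sup' ω h1

theorem exists_dgr {G : Type*} (ω : G → ℝ) (f : MonoidAlgebra K G) (h : f ≠ 0) :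
    ∃ u : G, f.coeff u ≠ 0 ∧ dgr ω f = ω u := by
  have h1 : f.coeff.support.Nonempty := by
    rw [Finsupp.support_nonempty_iff]
    intro h0
    exact h (MonoidAlgebra.coeff_eq_zero.1 h0)
  obtain ⟨u, hu, h2⟩ := Finset.exists_mem_eq_sup' h1 ω
  refine ⟨u, Finsupp.mem_support_iff.1 hu, ?_⟩
  unfold dgr
  rw [dif_pos h1, h2]

theorem dgr_le {G : Type*} (ω : G → ℝ) (f : MonoidAlgebra K G) (r : ℝ) (hf : f ≠ 0)
    (h : ∀ u, f.coeff u ≠ 0 → ω u ≤ r) : dgr ω f ≤ r := by
  obtain ⟨u, h1, h2⟩ := exists_dgr ω f hf
  rw [h2]
  exact h u h1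

/-- reduced echelon systems, indexed by their leading words -/
structure Ech (w : Fin n → ℝ) (s : Finset (Wd n)) (e : Wd n → A K n) : Prop where
  self : ∀ u ∈ s, (e u).coeff u = 1
  ne : ∀ u ∈ s, ∀ v ∈ s, u ≠ v → (e u).coeff v = 0
  dg : ∀ u ∈ s, dg w (e u) = wt w u

open Classical in
theorem exists_ech (w : Fin n → ℝ) (S : Submodule K (A K n)) (t : Finset (A K n))
    (ht : ∀ x ∈ t, x ∈ S) : ∃ (s : Finset (Wd n)) (e : Wd n → A K n), Ech w s e ∧
      (∀ u ∈ s, e u ∈ S) ∧ ∀ x ∈ t, x = ∑ u ∈ s, x.coeff u • e u := by
  induction t using Finset.induction with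
  | empty => exact ⟨∅, fun _ => 0, ⟨by simp, by simp, by simp⟩, by simp, by simp⟩
  | insert v t hv ih =>
    obtain ⟨s, e, h1, h2, h3⟩ := ih fun x hx => ht x (Finset.mem_insert_of_mem hx)
    have hvS : v ∈ S := ht v (Finset.mem_insert_self v t)
    set v' : A K n := v - ∑ u ∈ s, v.coeff u • e u with hv'
    have hv'S : v' ∈ S := S.sub_mem hvS (S.sum_mem fun u hu => S.smul_mem _ (h2 u hu))
    by_cases h0 : v' = 0
    · refine ⟨s, e, h1, h2, ?_⟩
      intro x hx
      rcases Finset.mem_insert.1 hx with rfl | hx
      · rw [hv', sub_eq_zero] at h0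
        exact h0
      · exact h3 x hx
    · -- the coefficients of `v'` at the words of `s` vanish
      have hz : ∀ u ∈ s, v'.coeff u = 0 := by
        intro u hu
        rw [hv', MonoidAlgebra.coeff_sub, MonoidAlgebra.coeff_sum, Finsupp.sub_apply,
          Finsupp.finsetSum_apply, Finset.sum_eq_single u]
        · rw [MonoidAlgebra.coeff_smul, Finsupp.smul_apply, h1.self u hu]
          simp
        · intro x hx hxu
          rw [MonoidAlgebra.coeff_smul, Finsupp.smul_apply, h1.ne x hx u hu hxu]
          simp
        · intro h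
          exact absurd hu h
      obtain ⟨L, hL, hLd⟩ := exists_dgr (wt w) v' h0
      have hLs : L ∉ s := fun h => hL (hz L h)
      set a : K := v'.coeff L with ha
      set v1 : A K n := a⁻¹ • v' with hv1
      have hv1L : v1.coeff L = 1 := by
        rw [hv1, MonoidAlgebra.coeff_smul, Finsupp.smul_apply, smul_eq_mul, ← ha,
          inv_mul_cancel₀ hL]
      have hv1z : ∀ u ∈ s, v1.coeff u = 0 := by
        intro u hu
        rw [hv1, MonoidAlgebra.coeff_smul, Finsupp.smul_apply, hz u hu, smul_zero]
      have hv1S : v1 ∈ S := S.smul_mem _ hv'S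
      have hv10 : v1 ≠ 0 := by
        intro h
        rw [h] at hv1L
        simp at hv1L
      have hv1w : ∀ u, v1.coeff u ≠ 0 → wt w u ≤ wt w L := by
        intro u hu
        rw [← hLd]
        apply le_dgr
        intro h
        apply hu
        rw [hv1, MonoidAlgebra.coeff_smul, Finsupp.smul_apply, h, smul_zero]
      have hself : ∀ u ∈ s, u ≠ L := fun u hu h => hLs (h ▸ hu)
      refine ⟨insert L s, fun u => if u = L then v1 else e u - (e u).coeff L • v1,
        ⟨?_, ?_, ?_⟩, ?_, ?_⟩
      · intro u hu
        rcases Finset.mem_insert.1 hu with rfl | hu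
        · simp [hv1L]
        · simp only [hself u hu, if_false]
          rw [MonoidAlgebra.coeff_sub, Finsupp.sub_apply, h1.self u hu, MonoidAlgebra.coeff_smul,
            Finsupp.smul_apply, hv1z u hu]
          simp
      · intro u hu z hz huz
        rcases Finset.mem_insert.1 hu with rfl | hu
        · rcases Finset.mem_insert.1 hz with rfl | hz
          · exact absurd rfl huz
          · simp [hv1z z hz]
        · simp only [hself u hu, if_false]
          rcases Finset.mem_insert.1 hz with rfl | hz
          · rw [MonoidAlgebra.coeff_sub, Finsupp.sub_apply, MonoidAlgebra.coeff_smul,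
              Finsupp.smul_apply, hv1L]
            simp
          · rw [MonoidAlgebra.coeff_sub, Finsupp.sub_apply, MonoidAlgebra.coeff_smul,
              Finsupp.smul_apply, hv1z z hz, h1.ne u hu z hz huz]
            simp
      · intro u hu
        rcases Finset.mem_insert.1 hu with rfl | hu
        · simp only [if_true]
          refine le_antisymm (dgr_le _ _ _ hv10 hv1w) (le_dgr _ _ _ ?_)
          rw [hv1L]
          exact one_ne_zero
        · simp only [hself u hu, if_false]
          have hc : (e u - (e u).coeff L • v1).coeff u = 1 := by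
            rw [MonoidAlgebra.coeff_sub, Finsupp.sub_apply, h1.self u hu,
              MonoidAlgebra.coeff_smul, Finsupp.smul_apply, hv1z u hu]
            simp
          have hne : e u - (e u).coeff L • v1 ≠ 0 := by
            intro h
            rw [h] at hc
            simp at hc
          refine le_antisymm (dgr_le _ _ _ hne ?_) (le_dgr _ _ _ ?_)
          · intro z hz
            by_cases h4 : (e u).coeff z = 0
            · have h5 : (e u).coeff L ≠ 0 ∧ v1.coeff z ≠ 0 := by
                rw [MonoidAlgebra.coeff_sub, Finsupp.sub_apply, h4, MonoidAlgebra.coeff_smul,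
                  Finsupp.smul_apply, smul_eq_mul, zero_sub, neg_ne_zero] at hz
                exact ⟨left_ne_zero_of_mul hz, right_ne_zero_of_mul hz⟩
              refine (hv1w z h5.2).trans ?_
              rw [← h1.dg u hu]
              exact le_dgr _ _ _ h5.1
            · rw [← h1.dg u hu]
              exact le_dgr _ _ _ h4
          · rw [hc]
            exact one_ne_zero
      · intro u hu
        rcases Finset.mem_insert.1 hu with rfl | hu
        · simpa using hv1S
        · simp only [hself u hu, if_false]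
          exact S.sub_mem (h2 u hu) (S.smul_mem _ hv1S)
      · -- the expansions
        have key : ∀ (x : A K n) (c : K), x = c • v' + ∑ u ∈ s, x.coeff u • e u →
            x = ∑ u ∈ insert L s, x.coeff u •
              (if u = L then v1 else e u - (e u).coeff L • v1) := by
          intro x c hx
          rw [Finset.sum_insert hLs, if_pos rfl]
          have h5 : ∑ u ∈ s, x.coeff u • (if u = L then v1 else e u - (e u).coeff L • v1) =
              ∑ u ∈ s, x.coeff u • e u - (∑ u ∈ s, x.coeff u * (e u).coeff L) • v1 := by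
            rw [Finset.sum_smul, ← Finset.sum_sub_distrib]
            refine Finset.sum_congr rfl fun u hu => ?_
            rw [if_neg (hself u hu), smul_sub, smul_smul]
          have h6 : x.coeff L = c * a + ∑ u ∈ s, x.coeff u * (e u).coeff L := by
            conv_lhs => rw [hx]
            rw [MonoidAlgebra.coeff_add, Finsupp.add_apply, MonoidAlgebra.coeff_smul,
              Finsupp.smul_apply, MonoidAlgebra.coeff_sum, Finsupp.finsetSum_apply]
            rfl
          rw [h5, h6, add_smul]
          have h7 : (c * a) • v1 = c • v' := by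
            rw [hv1, smul_smul, mul_assoc, mul_inv_cancel₀ hL, mul_one]
          rw [h7]
          conv_lhs => rw [hx]
          abel
        intro x hx
        rcases Finset.mem_insert.1 hx with rfl | hx
        · refine key x 1 ?_
          rw [one_smul, hv']
          abel
        · refine key x 0 ?_
          rw [zero_smul, zero_add]
          exact h3 x hx

theorem inr_sum (ι : Type*) (s : Finset ι) (f : ι → A K n) :
    inr (∑ i ∈ s, f i) = ∑ i ∈ s, inr (f i) := by
  unfold inr
  rw [map_sum, Finset.unop_sum]

theorem inr_smul (c : K) (f : A K n) : inr (c • f) = c • inr f := by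
  unfold inr
  rw [map_smul, MulOpposite.unop_smul]

theorem tn_sum_sum (ι : Type*) (s : Finset ι) (a b : ι → K) (e : ι → A K n) :
    tn (∑ i ∈ s, a i • e i) (∑ j ∈ s, b j • e j) =
      ∑ i ∈ s, ∑ j ∈ s, (a i * b j) • tn (e i) (e j) := by
  unfold tn
  rw [map_sum, inr_sum, Finset.sum_mul_sum]
  refine Finset.sum_congr rfl fun i _ => Finset.sum_congr rfl fun j _ => ?_
  rw [map_smul, inr_smul, smul_mul_smul_comm]

/-- module OR -/
theorem or (K : Type*) [Field K] (w : Fin 3 → ℝ) (_hw : Gen w) (_h1 : DegFacts K w)
    (h2 : DegbFacts K w) : OrStatement K w := by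
  classical
  intro S T hT
  -- finitely many elements suffice
  have hfin : ∃ t : Finset (A K 3), (∀ x ∈ t, x ∈ S) ∧
      T ∈ Submodule.span K {z : A2 K 3 | ∃ e ∈ t, ∃ e' ∈ t, z = tn e e'} := by
    induction hT using Submodule.span_induction with
    | mem x hx =>
      obtain ⟨e, he, e', he', rfl⟩ := hx
      refine ⟨{e, e'}, ?_, ?_⟩
      · intro x hx
        rw [Finset.mem_insert, Finset.mem_singleton] at hx
        rcases hx with rfl | rfl <;> assumption
      · exact Submodule.subset_span ⟨e, by simp, e', by simp, rfl⟩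
    | zero => exact ⟨∅, by simp, Submodule.zero_mem _⟩
    | add x y _ _ hx hy =>
      obtain ⟨t1, h3, h4⟩ := hx
      obtain ⟨t2, h5, h6⟩ := hy
      refine ⟨t1 ∪ t2, ?_, ?_⟩
      · intro z hz
        rcases Finset.mem_union.1 hz with hz | hz
        · exact h3 z hz
        · exact h5 z hz
      · refine Submodule.add_mem _ ?_ ?_
        · refine Submodule.span_mono ?_ h4
          rintro z ⟨e, he, e', he', rfl⟩
          exact ⟨e, Finset.mem_union_left _ he, e', Finset.mem_union_left _ he', rfl⟩
        · refine Submodule.span_mono ?_ h6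
          rintro z ⟨e, he, e', he', rfl⟩
          exact ⟨e, Finset.mem_union_right _ he, e', Finset.mem_union_right _ he', rfl⟩
    | smul c x _ hx =>
      obtain ⟨t, h3, h4⟩ := hx
      exact ⟨t, h3, Submodule.smul_mem _ _ h4⟩
  obtain ⟨t, ht, hT'⟩ := hfin
  clear hT
  obtain ⟨s, e, he, heS, hex⟩ := exists_ech w S t ht
  have hexp : T = ∑ u ∈ s, ∑ v ∈ s, T.coeff (u, op v) • tn (e u) (e v) := by
    induction hT' using Submodule.span_induction with
    | mem x hx =>
      obtain ⟨f, hf, g, hg, rfl⟩ := hx
      have h3 := tn_sum_sum (Wd 3) s (fun u => f.coeff u) (fun u => g.coeff u) e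
      rw [← hex f hf, ← hex g hg] at h3
      simp only [h2.cf]
      exact h3
    | zero => simp
    | add x y _ _ hx hy =>
      conv_lhs => rw [hx, hy]
      simp only [← Finset.sum_add_distrib]
      refine Finset.sum_congr rfl fun u _ => Finset.sum_congr rfl fun v _ => ?_
      rw [MonoidAlgebra.coeff_add, Finsupp.add_apply, add_smul]
    | smul c x _ hx =>
      conv_lhs => rw [hx]
      simp only [Finset.smul_sum]
      refine Finset.sum_congr rfl fun u _ => Finset.sum_congr rfl fun v _ => ?_
      rw [MonoidAlgebra.coeff_smul, Finsupp.smul_apply, smul_eq_mul, smul_smul]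
  -- the index set
  set I : Finset (Wd 3 × Wd 3) := (s ×ˢ s).filter fun p => T.coeff (p.1, op p.2) ≠ 0 with hI
  have hIm : ∀ p ∈ I, p.1 ∈ s ∧ p.2 ∈ s ∧ T.coeff (p.1, op p.2) ≠ 0 := by
    intro p hp
    rw [hI, Finset.mem_filter, Finset.mem_product] at hp
    exact ⟨hp.1.1, hp.1.2, hp.2⟩
  have hexp2 : T = ∑ p ∈ I, tn (T.coeff (p.1, op p.2) • e p.1) (e p.2) := by
    conv_lhs => rw [hexp]
    rw [← Finset.sum_product', hI, Finset.sum_filter]
    refine Finset.sum_congr rfl fun p _ => ?_
    by_cases hp : T.coeff (p.1, op p.2) = 0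
    · rw [if_neg (by simpa using hp), hp, zero_smul]
    · rw [if_pos hp]
      unfold tn
      rw [map_smul, smul_mul_assoc]
  refine ⟨I.card, fun i => T.coeff ((I.equivFin.symm i).1.1, op (I.equivFin.symm i).1.2) •
    e (I.equivFin.symm i).1.1, fun i => e (I.equivFin.symm i).1.2, ?_, ?_⟩
  · intro i
    obtain ⟨h3, h4, h5⟩ := hIm _ (I.equivFin.symm i).2
    refine ⟨S.smul_mem _ (heS _ h3), heS _ h4, ?_, ?_, ?_⟩
    · intro h
      have h6 := he.self _ h3
      rcases smul_eq_zero.1 h with h | h
      · exact h5 h
      · rw [h] at h6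
        simp at h6
    · intro h
      have h6 := he.self _ h4
      beta_reduce at h
      rw [h] at h6
      simp at h6
    · rw [_h1.smul _ _ h5, he.dg _ h3, he.dg _ h4]
      exact le_dgr (wt2 w) T _ h5
  · conv_lhs => rw [hexp2]
    rw [← Finset.sum_coe_sort I, ← Equiv.sum_comp I.equivFin.symm]

end

end Pool.Agent.Lib.MP_e1f7e2_al.FA.H41
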