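import Pool.Agent.Lib.MP_e1f7e2_al.FA.Iface

set_option autoImplicit false

/-!
Project FA (MP_e1f7e2_al): elements of `K⟨X,Y⟩` with few words containing `X`.
-/

open MulOpposite

namespace Pool.Agent.Lib.MP_e1f7e2_al.FA.H41

section

variable {K : Type*} [Field K]

/-- a word in two letters contains the letter `0` or is a power of the letter `1` -/
theorem word_cases (u : Wd 2) : (∃ a b : Wd 2, u = a * FreeMonoid.of 0 * b) ∨
    u = FreeMonoid.of 1 ^ u.toList.length := by
  induction u using FreeMonoid.inductionOn' with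
  | one => right; simp
  | of_mul x u ih =>
    fin_cases x
    · left
      exact ⟨1, u, by simp⟩
    · rcases ih with ⟨a, b, h⟩ | h
      · left
        refine ⟨FreeMonoid.of 1 * a, b, ?_⟩
        rw [h]
        simp [mul_assoc]
      · right
        have : (FreeMonoid.of (1 : Fin 2) * u).toList.length = u.toList.length + 1 := by
          simp [FreeMonoid.toList_mul]
          
        rw [show ((⟨1, by omega⟩ : Fin 2)) = 1 from rfl]
        rw [this, pow_succ', ← h]

/-- if no word of `P` contains `X` then `P` is a polynomial in `Y` -/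
theorem poly_of_words (P : A K 2) (h : ∀ u v : Wd 2, P.coeff (u * FreeMonoid.of 0 * v) = 0) :
    ∃ R : Polynomial K, P = Polynomial.aeval (xx 1) R := by
  refine ⟨P.coeff.sum (fun u c => Polynomial.C c * Polynomial.X ^ u.toList.length), ?_⟩
  rw [Finsupp.sum, map_sum]
  conv_lhs => rw [← MonoidAlgebra.sum_coeff_single P]
  rw [Finsupp.sum]
  refine Finset.sum_congr rfl fun u hu => ?_
  rcases word_cases u with ⟨a, b, hab⟩ | h1
  · rw [Finsupp.mem_support_iff] at hu
    exact absurd (hab ▸ h a b) hu
  · rw [map_mul, Polynomial.aeval_C, map_pow, Polynomial.aeval_X]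
    rw [xx, MonoidAlgebra.single_pow, one_pow, ← h1]
    rw [← Algebra.smul_def, MonoidAlgebra.smul_single, smul_eq_mul, mul_one]

/-- a word in two letters contains the letter `1` or is a power of the letter `0` -/
theorem word_cases' (u : Wd 2) : (∃ a b : Wd 2, u = a * FreeMonoid.of 1 * b) ∨
    u = FreeMonoid.of 0 ^ u.toList.length := by
  induction u using FreeMonoid.inductionOn' with
  | one => right; simp
  | of_mul x u ih =>
    fin_cases x
    · rcases ih with ⟨a, b, h⟩ | h
      · left
        refine ⟨FreeMonoid.of 0 * a, b, ?_⟩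
        rw [h]
        simp [mul_assoc]
      · right
        have : (FreeMonoid.of (0 : Fin 2) * u).toList.length = u.toList.length + 1 := by
          simp [FreeMonoid.toList_mul]
        rw [show ((⟨0, by omega⟩ : Fin 2)) = 0 from rfl]
        rw [this, pow_succ', ← h]
    · left
      exact ⟨1, u, by simp⟩

/-- if no word of `P` contains `Y` then `P` is a polynomial in `X` -/
theorem poly_of_words' (P : A K 2) (h : ∀ u v : Wd 2, P.coeff (u * FreeMonoid.of 1 * v) = 0) :
    ∃ R : Polynomial K, P = Polynomial.aeval (xx 0) R := by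
  refine ⟨P.coeff.sum (fun u c => Polynomial.C c * Polynomial.X ^ u.toList.length), ?_⟩
  rw [Finsupp.sum, map_sum]
  conv_lhs => rw [← MonoidAlgebra.sum_coeff_single P]
  rw [Finsupp.sum]
  refine Finset.sum_congr rfl fun u hu => ?_
  rcases word_cases' u with ⟨a, b, hab⟩ | h1
  · rw [Finsupp.mem_support_iff] at hu
    exact absurd (hab ▸ h a b) hu
  · rw [map_mul, Polynomial.aeval_C, map_pow, Polynomial.aeval_X]
    rw [xx, MonoidAlgebra.single_pow, one_pow, ← h1]
    rw [← Algebra.smul_def, MonoidAlgebra.smul_single, smul_eq_mul, mul_one]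

theorem ev_aeval' {n : ℕ} (f g : A K n) (R : Polynomial K) :
    ev (Polynomial.aeval (xx 0) R) f g = Polynomial.aeval f R := by
  unfold ev
  have h : evl ![f, g] (xx 0 : A K 2) = f := by
    unfold evl xx
    simp
  rw [← Polynomial.aeval_algHom_apply, h]

theorem ev_aeval {n : ℕ} (f g : A K n) (R : Polynomial K) :
    ev (Polynomial.aeval (xx 1) R) f g = Polynomial.aeval g R := by
  unfold ev
  have h : evl ![f, g] (xx 1 : A K 2) = g := by
    unfold evl xx
    simp
  rw [← Polynomial.aeval_algHom_apply, h]

theorem ev_x {n : ℕ} (f g : A K n) : ev (xx 0) f g = f := by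
  unfold ev evl xx
  simp

theorem ev_y {n : ℕ} (f g : A K n) : ev (xx 1) f g = g := by
  unfold ev evl xx
  simp

end

end Pool.Agent.Lib.MP_e1f7e2_al.FA.H41
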