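import Pool.Agent.Lib.MP_e1f7e2_al.FA.H41.Form

set_option autoImplicit false

/-!
Project FA (MP_e1f7e2_al): module WONE, (W1).
-/

open MulOpposite

namespace Pool.Agent.Lib.MP_e1f7e2_al.FA.H41

section

variable {K : Type*} [Field K]

theorem aeval_ne_zero {n : ℕ} {w : Fin n → ℝ} (h1 : DegFacts K w) (g : A K n)
    (hg : 0 < dg w g) (R : Polynomial K) (hR : R ≠ 0) : Polynomial.aeval g R ≠ 0 := by
  intro h
  have h2 := h1.poly g R hg
  rw [h, h1.zero] at h2
  have h3 : R.natDegree = 0 := by
    by_contra hne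
    have : (0 : ℝ) < R.natDegree := by
      have : 0 < R.natDegree := Nat.pos_of_ne_zero hne
      exact_mod_cast this
    have := mul_pos this hg
    linarith
  rw [Polynomial.eq_C_of_natDegree_eq_zero h3] at h
  rw [Polynomial.aeval_C] at h
  apply hR
  rw [Polynomial.eq_C_of_natDegree_eq_zero h3]
  rw [Algebra.algebraMap_eq_smul_one] at h
  have h4 := congrArg (fun z : A K n => z.coeff 1) h
  simp only [MonoidAlgebra.coeff_smul, Finsupp.smul_apply, MonoidAlgebra.coeff_zero,
    Finsupp.coe_zero, Pi.zero_apply, MonoidAlgebra.one_def, MonoidAlgebra.coeff_single,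
    Finsupp.single_eq_same, smul_eq_mul, mul_one] at h4
  rw [h4, Polynomial.C_0]

theorem dg_pos_ne {n : ℕ} {w : Fin n → ℝ} (h1 : DegFacts K w) {f : A K n} (hf : 0 < dg w f) :
    f ≠ 0 := by
  rintro rfl
  rw [h1.zero] at hf
  exact lt_irrefl _ hf

/-- the degree of `f` is not a multiple of the degree of `g` -/
theorem nd_mult {w : Fin 3 → ℝ} (he : EFacts K w) {f g : A K 3} (h : ND w f g) (k : ℕ) :
    dg w f ≠ k * dg w g := by
  intro h2
  exact h.nfg (he.dv f g k h.pf h.pg h.com h2)

/-- in `P_f = 1 ⊗ u + v ⊗ 1 ` with small degree, `Q3 = 0` and `Q1` is linear -/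
theorem q_small {w : Fin 3 → ℝ} (h1 : DegFacts K w) (he : EFacts K w) {f g : A K 3}
    (h : ND w f g) (Q1 Q3 : Polynomial K) (x : A K 3)
    (hx : dg w x = dg w (Polynomial.aeval g Q3) + dg w f ∨ Q3 = 0)
    (hx0 : Q3 = 0 → x = 0)
    (hlt : dg w (Polynomial.aeval g Q1 + x) < dg w f)
    (hlt' : dg w (Polynomial.aeval g Q1 + x) < 3 / 2 * dg w g) :
    Q3 = 0 ∧ Q1.natDegree ≤ 1 := by
  have h3 : Q3 = 0 := by
    by_contra hne
    have hx' := hx.resolve_right hne
    rw [h1.poly g Q3 h.pg] at hx'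
    have h4 := h1.poly g Q1 h.pg
    have hm : (0 : ℝ) ≤ Q3.natDegree := Nat.cast_nonneg _
    have hg := h.pg
    have hmg : 0 ≤ (Q3.natDegree : ℝ) * dg w g := mul_nonneg hm hg.le
    rcases lt_trichotomy (dg w (Polynomial.aeval g Q1)) (dg w x) with h5 | h5 | h5
    · rw [h1.add_right _ _ h5] at hlt
      linarith
    · rw [h4, hx'] at h5
      have h6 : Q3.natDegree < Q1.natDegree := by
        by_contra h7
        rw [not_lt] at h7
        have h8 : (Q1.natDegree : ℝ) ≤ Q3.natDegree := by exact_mod_cast h7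
        have h9 := mul_le_mul_of_nonneg_right h8 hg.le
        have := h.pf
        linarith
      refine nd_mult he h (Q1.natDegree - Q3.natDegree) ?_
      rw [Nat.cast_sub h6.le]
      linarith
    · rw [h1.add_left _ _ h5] at hlt
      linarith
  refine ⟨h3, ?_⟩
  rw [hx0 h3, add_zero, h1.poly g Q1 h.pg] at hlt'
  by_contra h4
  rw [not_le] at h4
  have h5 : (2 : ℝ) ≤ Q1.natDegree := by exact_mod_cast h4
  have h6 := mul_le_mul_of_nonneg_right h5 h.pg.le
  have := h.pg
  linarith

theorem good_ineq {w : Fin 3 → ℝ} {f g : A K 3} (hgd : Gd w f g) (hlt : dg w g < dg w f) :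
    dg w f - dg w g / 2 < E w f g ∧ dg w g < E w f g := by
  have h1 := hgd.lmin
  have h2 := hgd.lmax
  rw [min_eq_right hlt.le] at h1
  rw [max_eq_left hlt.le] at h2
  unfold Df at h1 h2
  constructor <;> linarith

/-- the first half of the proof of (W1) -/
theorem w1_form {w : Fin 3 → ℝ} (h1 : DegFacts K w) (h2 : DegbFacts K w)
    (hc : ∀ n : ℕ, ChainFacts K n) (hor : OrStatement K w) (hxe : XeFacts K w)
    (he : EFacts K w) (f g q : A K 3) (hfg : f * g ≠ g * f) (hnd : ND w f g) (hgd : Gd w f g)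
    (hlt : dg w g < dg w f) (hq : q ∈ B f g) (hqf : dg w q < dg w f) :
    ∃ (c b b' : K) (R : Polynomial K),
      q = c • f + b • (f * g) + b' • (g * f) + Polynomial.aeval g R := by
  obtain ⟨hE1, hE2⟩ := good_ineq hgd hlt
  obtain ⟨P, rfl⟩ := ((hc 3).bmem f g q).1 hq
  by_cases hP : dX 0 P = 0
  · obtain ⟨R, rfl⟩ := poly_of_dX_zero (hc 2) P hP
    exact ⟨0, 0, 0, R, by rw [ev_aeval]; simp⟩
  · set T := evl2 ![f, g] (dX 0 P) with hT
    have hv := he.v2 f g P hfg (fun h => hP (he.inj2 f g _ hfg h))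
    have hle := he.le (ev P f g) g
    have hTs : dg2 w T < 3 / 2 * dg w g := by linarith
    have hTf : dg2 w T < dg w f := by
      have := hgd.lmax
      rw [max_eq_left hlt.le] at this
      unfold Df at this
      linarith
    -- the orthogonal decomposition
    obtain ⟨k, e, e', hee, hs⟩ := hor _ _ (evl2_mem_span (hc 3) f g (dX 0 P))
    have hx0 : ∀ r ∈ B f g, dg w r < dg w g → ∃ c : K, r = c • 1 := fun r hr hr' =>
      hxe.xe0 f g r hfg hlt hnd.nfg hE2 hr hr'
    have h3 : ∀ i, ∃ u v : A K 3, u ∈ B f g ∧ v ∈ B f g ∧ tn (e i) (e' i) = inr u + inl v := by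
      intro i
      obtain ⟨he1, he2, -, -, he5⟩ := hee i
      rw [← hT] at he5
      by_cases h4 : dg w (e i) < dg w g
      · obtain ⟨c, hcc⟩ := hx0 _ he1 h4
        refine ⟨c • e' i, 0, (B f g).smul_mem he2 c, (B f g).zero_mem, ?_⟩
        rw [hcc, map_zero, add_zero]
        unfold tn
        rw [map_smul, map_one, smul_mul_assoc, one_mul, inr_smulc]
      · rw [not_lt] at h4
        obtain ⟨c, hcc⟩ := hx0 _ he2 (by linarith [hnd.pg])
        refine ⟨0, c • e i, (B f g).zero_mem, (B f g).smul_mem he1 c, ?_⟩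
        rw [hcc]
        unfold tn
        rw [inr_smulc, inr_one', mul_smul_comm, mul_one, map_smul]
        unfold inr
        simp
    choose u v hu hv' huv using h3
    have h4 : T = inr (∑ i, u i) + inl (∑ i, v i) := by
      rw [hT, hs, map_sum, inr_sumc, ← Finset.sum_add_distrib]
      exact Finset.sum_congr rfl fun i _ => huv i
    obtain ⟨U, hU⟩ := ((hc 3).bmem f g (∑ i, u i)).1 (Subalgebra.sum_mem _ fun i _ => hu i)
    obtain ⟨V, hV⟩ := ((hc 3).bmem f g (∑ i, v i)).1 (Subalgebra.sum_mem _ fun i _ => hv' i)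
    have h5 : dX 0 P = inr U + inl V := by
      have h6 : evl2 ![f, g] (dX 0 P + (-1 : K) • (inr U + inl V)) = 0 := by
        rw [(hc 3).e2add, (hc 3).e2smul, (hc 3).e2add, evl2_inr (hc 3), evl2_inl (hc 3), ← hU,
          ← hV, ← h4, ← hT]
        simp
      have h7 := he.inj2 f g _ hfg h6
      rw [neg_smul, one_smul, ← sub_eq_add_neg, sub_eq_zero] at h7
      exact h7
    obtain ⟨Q1, Q2, Q3, R, hPf⟩ := form_of_dX (hc 2) P U V h5
    have h8 : T = inr (Polynomial.aeval g Q1 + Polynomial.aeval g Q3 * f) +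
        inl (Polynomial.aeval g Q2 + f * Polynomial.aeval g Q3) := by
      rw [hT, hPf, dX_form (hc 2), (hc 3).e2add, evl2_inr (hc 3), evl2_inl (hc 3)]
      simp only [ev_add, ev_mul, ev_aeval, ev_x]
    have h9 := h2.two (Polynomial.aeval g Q1 + Polynomial.aeval g Q3 * f)
      (Polynomial.aeval g Q2 + f * Polynomial.aeval g Q3)
    rw [← h8] at h9
    have h10 : dg w (Polynomial.aeval g Q1 + Polynomial.aeval g Q3 * f) ≤ dg2 w T := by
      rw [h9]; exact le_max_left _ _
    have h11 : dg w (Polynomial.aeval g Q2 + f * Polynomial.aeval g Q3) ≤ dg2 w T := by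
      rw [h9]; exact le_max_right _ _
    have hf0 : f ≠ 0 := dg_pos_ne h1 hnd.pf
    obtain ⟨hQ3, hQ1⟩ := q_small h1 he hnd Q1 Q3 (Polynomial.aeval g Q3 * f)
      (by
        by_cases h : Q3 = 0
        · exact Or.inr h
        · exact Or.inl (h1.mul _ _ (aeval_ne_zero h1 g hnd.pg Q3 h) hf0))
      (by rintro rfl; simp) (h10.trans_lt hTf) (h10.trans_lt hTs)
    obtain ⟨-, hQ2⟩ := q_small h1 he hnd Q2 Q3 (f * Polynomial.aeval g Q3)
      (by
        by_cases h : Q3 = 0
        · exact Or.inr h
        · left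
          rw [h1.mul _ _ hf0 (aeval_ne_zero h1 g hnd.pg Q3 h), add_comm])
      (by rintro rfl; simp) (h11.trans_lt hTf) (h11.trans_lt hTs)
    obtain ⟨b, a, hQ1'⟩ := Polynomial.exists_eq_X_add_C_of_natDegree_le_one hQ1
    obtain ⟨b', a', hQ2'⟩ := Polynomial.exists_eq_X_add_C_of_natDegree_le_one hQ2
    refine ⟨a + a', b, b', R, ?_⟩
    rw [hPf, hQ3, hQ1', hQ2']
    simp only [ev_add, ev_mul, ev_aeval, ev_x, map_add, map_mul, Polynomial.aeval_C,
      Polynomial.aeval_X, map_zero, mul_zero, zero_mul, add_zero]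
    rw [Algebra.algebraMap_eq_smul_one, Algebra.algebraMap_eq_smul_one,
      Algebra.algebraMap_eq_smul_one, Algebra.algebraMap_eq_smul_one]
    simp only [ev_smul, ev_one, ev_y, smul_mul_assoc, one_mul, mul_add, add_mul, mul_smul_comm,
      mul_one, add_smul]
    abel

/-- sums `a [f,g] + c f + R(g)` -/
theorem three_sum {w : Fin 3 → ℝ} (h1 : DegFacts K w) (he : EFacts K w) (f g : A K 3)
    (hfg : f * g ≠ g * f) (hnd : ND w f g) (c b : K) (R : Polynomial K) (hc : c ≠ 0)
    (hb : b ≠ 0) :
    dg w f ≤ dg w (c • f + b • (f * g - g * f) + Polynomial.aeval g R) := by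
  set h := c • f + Polynomial.aeval g R with hh
  have hdh : dg w h = max (dg w f) (dg w (Polynomial.aeval g R)) :=
    dg_lin h1 f g c R hc hnd.pf hnd.pg hnd.nfg
  have hsum : c • f + b • (f * g - g * f) + Polynomial.aeval g R =
      h + b • (f * g - g * f) := by
    rw [hh]; abel
  rw [hsum]
  have hbE : dg w (b • (f * g - g * f)) = E w f g := h1.smul _ _ hb
  rcases lt_trichotomy (dg w h) (dg w (b • (f * g - g * f))) with h2 | h2 | h2
  · rw [h1.add_right _ _ h2]
    have := le_max_left (dg w f) (dg w (Polynomial.aeval g R))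
    linarith
  · -- no cancellation because `[f,g]` and `g` have noncommuting tops
    have h3 : E w (h + b • (f * g - g * f)) g = E w f g + dg w g := by
      have h4 : E w h g ≤ E w f g := by
        have : E w h g = E w (c • f) g := by
          rw [hh]; exact he.addp (c • f) g R
        rw [this, he.smul _ _ _ hc]
      have h5 : E w (b • (f * g - g * f)) g = E w f g + dg w g := by
        rw [he.smul _ _ _ hb, he.nc f g hfg]
      have h6 : E w (b • (f * g - g * f) + h) g = E w (b • (f * g - g * f)) g := by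
        apply he.add_left
        rw [h5]
        have := hnd.pg
        linarith
      rw [add_comm, h6, h5]
    have h7 := he.le (h + b • (f * g - g * f)) g
    have h8 := le_max_left (dg w f) (dg w (Polynomial.aeval g R))
    linarith
  · rw [h1.add_left _ _ h2, hdh]
    exact le_max_left _ _

/-- no cancellation with `g f` -/
theorem four_sum {w : Fin 3 → ℝ} (h1 : DegFacts K w) (he : EFacts K w) (f g : A K 3)
    (hnd : ND w f g) (c b β : K) (R : Polynomial K) (hβ : β ≠ 0) :
    dg w f ≤ dg w (c • f + b • (f * g - g * f) + β • (g * f) + Polynomial.aeval g R) := by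
  have hf0 : f ≠ 0 := dg_pos_ne h1 hnd.pf
  have hg0 : g ≠ 0 := dg_pos_ne h1 hnd.pg
  have hpf := hnd.pf
  have hpg := hnd.pg
  have h2 : dg w (β • (g * f)) = dg w g + dg w f := by
    rw [h1.smul _ _ hβ, h1.mul _ _ hg0 hf0]
  have hcom : dg w (f * g - g * f) < dg w f + dg w g := hnd.com
  have h3 : dg w (c • f + b • (f * g - g * f)) < dg w (β • (g * f)) := by
    rw [h2]
    refine (h1.add_le _ _).trans_lt (max_lt ?_ ?_)
    · exact (h1.smul_le _ _).trans_lt (by linarith)
    · exact (h1.smul_le _ _).trans_lt (by linarith)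
  have h4 : dg w (c • f + b • (f * g - g * f) + β • (g * f)) = dg w g + dg w f := by
    rw [h1.add_right _ _ h3, h2]
  have h5 : dg w (Polynomial.aeval g R) ≠ dg w g + dg w f := by
    rw [h1.poly g R hpg]
    intro h6
    have h7 : 1 ≤ R.natDegree := by
      by_contra h8
      have h9 : R.natDegree = 0 := by omega
      rw [h9] at h6
      simp only [CharP.cast_eq_zero, zero_mul] at h6
      linarith
    refine nd_mult he hnd (R.natDegree - 1) ?_
    rw [Nat.cast_sub h7]
    push_cast
    linarith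
  rcases lt_or_gt_of_ne h5 with h6 | h6
  · rw [h1.add_left _ _ (by rw [h4]; exact h6), h4]
    linarith
  · rw [h1.add_right _ _ (by rw [h4]; exact h6)]
    linarith

/-- (W1) -/
theorem w1_main {w : Fin 3 → ℝ} (h1 : DegFacts K w) (h2 : DegbFacts K w)
    (hc : ∀ n : ℕ, ChainFacts K n) (hor : OrStatement K w) (hxe : XeFacts K w)
    (he : EFacts K w) (f g q : A K 3) (hfg : f * g ≠ g * f) (hnd : ND w f g) (hgd : Gd w f g)
    (hlt : dg w g < dg w f) (hq : q ∈ B f g) (hqf : dg w q < dg w f) :
    ∃ (a : K) (R : Polynomial K),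
      q = a • (f * g - g * f) + Polynomial.aeval g R ∧ dg w (Polynomial.aeval g R) ≤ dg w q ∧
      (a ≠ 0 → E w f g ≤ dg w q ∧ E w q f = dg w f + E w f g) := by
  obtain ⟨c, b, b', R, hqe⟩ := w1_form h1 h2 hc hor hxe he f g q hfg hnd hgd hlt hq hqf
  have hqe2 : q = c • f + b • (f * g - g * f) + (b + b') • (g * f) +
      Polynomial.aeval g R := by
    rw [hqe, smul_sub, add_smul]
    abel
  have hβ : b + b' = 0 := by
    by_contra hne
    have := four_sum h1 he f g hnd c b (b + b') R hne
    rw [← hqe2] at this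
    linarith
  rw [hβ, zero_smul, add_zero] at hqe2
  have hc0 : c = 0 := by
    by_contra hne
    by_cases hb : b = 0
    · rw [hb, zero_smul, add_zero] at hqe2
      have := dg_lin h1 f g c R hne hnd.pf hnd.pg hnd.nfg
      rw [← hqe2] at this
      have := le_max_left (dg w f) (dg w (Polynomial.aeval g R))
      linarith
    · have := three_sum h1 he f g hfg hnd c b R hne hb
      rw [← hqe2] at this
      linarith
  rw [hc0, zero_smul, zero_add] at hqe2
  by_cases hb : b = 0
  · refine ⟨0, R, ?_, ?_, fun h => absurd rfl h⟩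
    · rw [hqe2, hb]
    · rw [hqe2, hb, zero_smul, zero_add]
  · have hmax := he.ncadd f g b R hfg hb
    rw [← hqe2] at hmax
    refine ⟨b, R, hqe2, ?_, fun _ => ⟨?_, ?_⟩⟩
    · rw [hmax]; exact le_max_right _ _
    · rw [hmax]; exact le_max_left _ _
    · -- the commutator with `f`
      have h3 : E w (b • (f * g - g * f)) f = E w f g + dg w f := by
        rw [he.smul _ _ _ hb]
        have h4 := he.nc g f (Ne.symm hfg)
        rw [he.comm g f] at h4
        rw [← h4]
        have h5 : g * f - f * g = (-1 : K) • (f * g - g * f) := by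
          rw [neg_smul, one_smul]; abel
        rw [h5, he.smul _ _ _ (neg_ne_zero.2 one_ne_zero)]
      have h6 : E w (Polynomial.aeval g R) f < E w (b • (f * g - g * f)) f := by
        rw [h3]
        have hpf := hnd.pf
        have hE := (he.pos f g hfg).1
        by_cases hR : R.natDegree = 0
        · obtain ⟨c0, hc0'⟩ := h1.polyc g R hR
          rw [hc0', he.zero _ _ (by simp)]
          linarith
        · rw [he.poly f g R hfg hR]
          have h7 : dg w (Polynomial.aeval g R) ≤ dg w q := by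
            rw [hmax]; exact le_max_right _ _
          have := hnd.pg
          linarith
      rw [hqe2, he.add_left _ _ _ h6, h3, add_comm]

/-- lower terms of a polynomial expression -/
theorem eraseLead_lt {n : ℕ} {w : Fin n → ℝ} (h1 : DegFacts K w) (g : A K n)
    (hg : 0 < dg w g) (R : Polynomial K) (hR : R.natDegree ≠ 0) :
    dg w (Polynomial.aeval g R - R.leadingCoeff • g ^ R.natDegree) <
      dg w (Polynomial.aeval g R) := by
  have hsplit : Polynomial.aeval g R - R.leadingCoeff • g ^ R.natDegree =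
      Polynomial.aeval g R.eraseLead := by
    rw [sub_eq_iff_eq_add]
    conv_lhs => rw [← R.eraseLead_add_C_mul_X_pow]
    rw [map_add, map_mul, Polynomial.aeval_C, map_pow, Polynomial.aeval_X,
      ← Algebra.smul_def]
  rw [hsplit, h1.poly g _ hg, h1.poly g _ hg]
  have h3 := R.eraseLead_natDegree_le
  have h4 : (R.eraseLead.natDegree : ℝ) < R.natDegree := by
    have : R.eraseLead.natDegree < R.natDegree := by omega
    exact_mod_cast this
  exact mul_lt_mul_of_pos_right h4 hg

theorem dg_eq_of_lt {n : ℕ} {w : Fin n → ℝ} (h1 : DegFacts K w) (f f' : A K n)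
    (h : dg w (f - f') < dg w f) : dg w f' = dg w f := by
  have := h1.sub_left f (f - f') h
  rwa [sub_sub_cancel] at this

theorem dv_top {n : ℕ} {w : Fin n → ℝ} (h1 : DegFacts K w) (f f' g : A K n)
    (h : dg w (f - f') < dg w f) (hd : Dv w f g) : Dv w f' g := by
  obtain ⟨c, k, hk, hlt⟩ := hd
  refine ⟨c, k, hk, ?_⟩
  rw [dg_eq_of_lt h1 f f' h]
  have : f' - c • g ^ k = (f - c • g ^ k) - (f - f') := by abel
  rw [this]
  exact (h1.sub_le _ _).trans_lt (max_lt hlt h)

theorem pow_close {n : ℕ} {w : Fin n → ℝ} (h1 : DegFacts K w) (g g' : A K n)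
    (h : dg w (g - g') < dg w g) (k : ℕ) (hk : 1 ≤ k) :
    dg w (g ^ k - g' ^ k) < k * dg w g := by
  have hgg := dg_eq_of_lt h1 g g' h
  induction k, hk using Nat.le_induction with
  | base => simpa using h
  | succ k hk ih =>
    have h2 : g ^ (k + 1) - g' ^ (k + 1) = g ^ k * (g - g') + (g ^ k - g' ^ k) * g' := by
      rw [mul_sub, sub_mul, pow_succ, pow_succ]
      abel
    rw [h2]
    have h3 := h1.mul_le (g ^ k) (g - g')
    have h4 := h1.mul_le (g ^ k - g' ^ k) g'
    rw [h1.pow] at h3
    push_cast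
    refine (h1.add_le _ _).trans_lt (max_lt ?_ ?_)
    · linarith
    · rw [hgg] at h4
      linarith

theorem dv_top' {n : ℕ} {w : Fin n → ℝ} (h1 : DegFacts K w) (f g g' : A K n)
    (h : dg w (g - g') < dg w g) (hd : Dv w f g) : Dv w f g' := by
  obtain ⟨c, k, hk, hlt⟩ := hd
  refine ⟨c, k, hk, ?_⟩
  have h2 := dg_eq_of_lt h1 f _ hlt
  have hc : c ≠ 0 := by
    rintro rfl
    rw [zero_smul, sub_zero] at hlt
    exact lt_irrefl _ hlt
  rw [h1.smul _ _ hc, h1.pow] at h2
  have h3 := pow_close h1 g g' h k hk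
  have h4 : f - c • g' ^ k = (f - c • g ^ k) + c • (g ^ k - g' ^ k) := by
    rw [smul_sub]; abel
  rw [h4]
  refine (h1.add_le _ _).trans_lt (max_lt hlt ?_)
  rw [h1.smul _ _ hc]
  linarith

theorem com_top {w : Fin 3 → ℝ} (h1 : DegFacts K w) (f f' g : A K 3)
    (h : dg w (f - f') < dg w f) (hc : Com w f g) : Com w f' g := by
  unfold Com E at hc ⊢
  rw [dg_eq_of_lt h1 f f' h]
  have h2 : f' * g - g * f' = (f * g - g * f) - ((f - f') * g - g * (f - f')) := by
    rw [sub_mul, mul_sub]; abel
  rw [h2]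
  refine (h1.sub_le _ _).trans_lt (max_lt hc ?_)
  refine (h1.sub_le _ _).trans_lt (max_lt ?_ ?_)
  · exact (h1.mul_le _ _).trans_lt (by linarith)
  · exact (h1.mul_le _ _).trans_lt (by linarith)

theorem nd_swap {w : Fin 3 → ℝ} (he : EFacts K w) (f g : A K 3) (h : ND w f g) :
    ND w g f where
  pf := h.pg
  pg := h.pf
  com := by
    have := h.com
    unfold Com at this ⊢
    rw [he.comm g f]
    linarith
  nfg := h.ngf
  ngf := h.nfg

/-- module WONE -/
theorem wone (K : Type*) [Field K] (w : Fin 3 → ℝ) (_hw : Gen w) (h1 : DegFacts K w)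
    (h2 : DegbFacts K w) (hc : ∀ n : ℕ, ChainFacts K n) (hor : OrStatement K w)
    (hxe : XeFacts K w) (_hmem : MemFacts K w) (he : EFacts K w) (_hcom : ComwFacts K w) :
    WoneFacts K w where
  w1 f g q hfg hnd hgd hlt hq hqf :=
    w1_main h1 h2 hc hor hxe he f g q hfg hnd hgd hlt hq hqf
  w2 f g q hfg hnd hgd hlt hq hqf hqp hqc := by
    obtain ⟨a, R, hqe, hRq, ha⟩ := w1_main h1 h2 hc hor hxe he f g q hfg hnd hgd hlt hq hqf
    by_cases ha0 : a = 0
    · rw [ha0, zero_smul, zero_add] at hqe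
      have hR : R.natDegree ≠ 0 := by
        intro h
        rw [hqe, h1.poly g R hnd.pg, h] at hqp
        simp at hqp
      refine ⟨⟨R.leadingCoeff, R.natDegree, by omega, ?_⟩, R, hR, ?_⟩
      · rw [hqe]
        exact eraseLead_lt h1 g hnd.pg R hR
      · rw [← hqe, sub_self, h1.zero]
        exact hqp
    · have hmax := he.ncadd f g a R hfg ha0
      rw [← hqe] at hmax
      have h3 : E w q g = E w f g + dg w g := by
        rw [hqe, he.addp, he.smul _ _ _ ha0, he.nc f g hfg]
      unfold Com at hqc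
      rw [h3] at hqc
      have h4 : E w f g < dg w q := by linarith
      have h5 : dg w q = dg w (Polynomial.aeval g R) := by
        rw [hmax]
        apply max_eq_right
        by_contra h6
        rw [not_le] at h6
        rw [max_eq_left h6.le] at hmax
        linarith
      have hR : R.natDegree ≠ 0 := by
        intro h
        rw [h5, h1.poly g R hnd.pg, h] at hqp
        simp at hqp
      have h6 : dg w (q - Polynomial.aeval g R) < dg w q := by
        have h7 : q - Polynomial.aeval g R = a • (f * g - g * f) := by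
          rw [hqe]; abel
        rw [h7, h1.smul _ _ ha0]
        exact h4
      refine ⟨⟨R.leadingCoeff, R.natDegree, by omega, ?_⟩, R, hR, h6⟩
      have h8 : q - R.leadingCoeff • g ^ R.natDegree = (q - Polynomial.aeval g R) +
          (Polynomial.aeval g R - R.leadingCoeff • g ^ R.natDegree) := by abel
      rw [h8]
      refine (h1.add_le _ _).trans_lt (max_lt h6 ?_)
      rw [h5]
      exact eraseLead_lt h1 g hnd.pg R hR
  nd1 f g c R hnd hc0 := by
    refine ⟨dg_lin h1 f g c R hc0 hnd.pf hnd.pg hnd.nfg, ?_⟩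
    rw [h1.poly g R hnd.pg]
    exact nd_mult he hnd _
  ndsymm f g h := nd_swap he f g h
  gdsymm f g h := by
    have h3 := h.lmin
    have h4 := h.lmax
    constructor
    · unfold Df at h3 ⊢
      rw [he.comm g f, min_comm]
      linarith
    · unfold Df at h4 ⊢
      rw [he.comm g f, max_comm]
      linarith
  ndne f g h := by
    have := nd_mult he h 1
    simpa using this
  dvtop f f' g _ h hd := dv_top h1 f f' g h hd
  dvtop' f g g' _ h hd := dv_top' h1 f g g' h hd
  comtop f f' g _ _ h hc := com_top h1 f f' g h hc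
  ndtop f f' g h hnd := by
    have h3 := dg_eq_of_lt h1 f f' h
    have h4 : dg w (f' - f) < dg w f' := by
      rw [h1.sub_comm, h3]; exact h
    exact {
      pf := by rw [h3]; exact hnd.pf
      pg := hnd.pg
      com := com_top h1 f f' g h hnd.com
      nfg := fun hd => hnd.nfg (dv_top h1 f' f g h4 hd)
      ngf := fun hd => hnd.ngf (dv_top' h1 g f' f h4 hd) }
  dgtop f f' h := dg_eq_of_lt h1 f f' h
  dvtrans f g h _ hfg hgh := by
    obtain ⟨c, k, hk, hlt⟩ := hgh
    obtain ⟨c', k', hk', hlt'⟩ := dv_top' h1 f g (c • h ^ k) hlt hfg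
    refine ⟨c' * c ^ k', k * k', Nat.mul_pos hk hk', ?_⟩
    rw [smul_pow, ← pow_mul, smul_smul] at hlt'
    exact hlt'
  dvsmul f g c hc0 _ := by
    constructor
    · rintro ⟨a, k, hk, hlt⟩
      refine ⟨c⁻¹ * a, k, hk, ?_⟩
      have h3 : f - (c⁻¹ * a) • g ^ k = c⁻¹ • (c • f - a • g ^ k) := by
        rw [smul_sub, smul_smul, smul_smul, inv_mul_cancel₀ hc0, one_smul]
      rw [h3, h1.smul _ _ (inv_ne_zero hc0), ← h1.smul c f hc0]
      exact hlt
    · rintro ⟨a, k, hk, hlt⟩
      refine ⟨c * a, k, hk, ?_⟩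
      rw [← smul_smul, ← smul_sub, h1.smul _ _ hc0, h1.smul _ _ hc0]
      exact hlt

end

end Pool.Agent.Lib.MP_e1f7e2_al.FA.H41
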