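import Pool.Agent.Lib.MP_e1f7e2_al.FA.H41.Mem

set_option autoImplicit false

/-!
Project FA (MP_e1f7e2_al): module XE, (X5).
-/

open MulOpposite

namespace Pool.Agent.Lib.MP_e1f7e2_al.FA.H41

section

variable {K : Type*} [Field K]

/-- if `D_Y P = 0` then `P` is a polynomial in `X` -/
theorem poly_of_dX_zero' (hc : ChainFacts K 2) (P : A K 2) (h : dX 1 P = 0) :
    ∃ R : Polynomial K, P = Polynomial.aeval (xx 0) R := by
  refine poly_of_words' P fun u v => ?_
  have h1 := hc.cf 1 P u v
  rw [h] at h1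
  simpa using h1.symm

/-- if `D_Y P = c` then `P = c Y + R(X)` -/
theorem lin_of_dX_const' (hc : ChainFacts K 2) (P : A K 2) (c : K) (h : dX 1 P = c • 1) :
    ∃ R : Polynomial K, P = c • xx 1 + Polynomial.aeval (xx 0) R := by
  have h1 : dX 1 (P - c • xx 1) = 0 := by
    rw [sub_eq_add_neg, ← neg_smul, hc.add, hc.smul, hc.xx', h]
    simp
  obtain ⟨R, hR⟩ := poly_of_dX_zero' hc _ h1
  exact ⟨R, by rw [← hR]; abel⟩

/-- the image of `evl2` is spanned by the `e ⊗ e'` with `e, e'` in `K⟨f,g⟩` -/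
theorem evl2_mem_span {n : ℕ} (hc : ChainFacts K n) (f g : A K n) (T : A2 K 2) :
    evl2 ![f, g] T ∈ Submodule.span K {t : A2 K n | ∃ e ∈ Subalgebra.toSubmodule (B f g),
      ∃ e' ∈ Subalgebra.toSubmodule (B f g), t = tn e e'} := by
  unfold evl2
  rw [Finsupp.sum]
  refine Submodule.sum_mem _ fun p _ => Submodule.smul_mem _ _ (Submodule.subset_span ?_)
  refine ⟨_, ?_, _, ?_, rfl⟩
  · rw [Subalgebra.mem_toSubmodule, hc.bmem]
    exact ⟨_, rfl⟩
  · rw [Subalgebra.mem_toSubmodule, hc.bmem]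
    exact ⟨_, rfl⟩

theorem tn_const {n : ℕ} (a b : K) : tn (a • (1 : A K n)) (b • 1) = (a * b) • 1 := by
  unfold tn inr
  simp [smul_smul, mul_comm]

/-- elements of `B ⊗ B^op` of small degree are constant -/
theorem const_of_small {w : Fin 3 → ℝ} (h1 : DegFacts K w) (hc : ChainFacts K 3)
    (hor : OrStatement K w) (f g : A K 3) (m : ℝ)
    (hm : ∀ q ∈ B f g, 0 < dg w q → m ≤ dg w q) (T : A2 K 2)
    (hT : dg2 w (evl2 ![f, g] T) < m) : ∃ c : K, evl2 ![f, g] T = c • 1 := by
  obtain ⟨k, e, e', he, hs⟩ := hor _ _ (evl2_mem_span hc f g T)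
  have h2 : ∀ i, ∃ c : K, tn (e i) (e' i) = c • 1 := by
    intro i
    obtain ⟨he1, he2, -, -, he5⟩ := he i
    have h3 := h1.nn (e i)
    have h4 := h1.nn (e' i)
    have h5 : dg w (e i) = 0 := by
      by_contra hne
      have := hm (e i) he1 (lt_of_le_of_ne h3 (Ne.symm hne))
      linarith
    have h6 : dg w (e' i) = 0 := by
      by_contra hne
      have := hm (e' i) he2 (lt_of_le_of_ne h4 (Ne.symm hne))
      linarith
    obtain ⟨a, ha⟩ := h1.of_zero _ h5
    obtain ⟨b, hb⟩ := h1.of_zero _ h6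
    exact ⟨a * b, by rw [ha, hb, tn_const]⟩
  choose c hc' using h2
  refine ⟨∑ i, c i, ?_⟩
  rw [hs, Finset.sum_smul]
  exact Finset.sum_congr rfl fun i _ => hc' i

/-- `c f + R(g)` has no cancellation if the top of `f` is not a multiple of a power of the
top of `g` -/
theorem dg_lin {n : ℕ} {w : Fin n → ℝ} (h1 : DegFacts K w) (f g : A K n) (c : K)
    (R : Polynomial K) (hc : c ≠ 0) (hf : 0 < dg w f) (hg : 0 < dg w g) (hd : ¬ Dv w f g) :
    dg w (c • f + Polynomial.aeval g R) = max (dg w f) (dg w (Polynomial.aeval g R)) := by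
  have hcf : dg w (c • f) = dg w f := h1.smul c f hc
  by_cases hk : R.natDegree = 0
  · obtain ⟨c0, h0⟩ := h1.polyc g R hk
    rw [h0, h1.const, h1.add_left _ _ (by rw [h1.const, hcf]; exact hf), hcf,
      max_eq_left hf.le]
  · have hR := h1.poly g R hg
    rcases lt_trichotomy (dg w f) (dg w (Polynomial.aeval g R)) with h | h | h
    · rw [h1.add_right _ _ (by rw [hcf]; exact h), max_eq_right h.le]
    · rw [← h, max_self]
      refine le_antisymm ?_ ?_
      · refine (h1.add_le _ _).trans ?_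
        rw [hcf, ← h, max_self]
      · by_contra hlt
        rw [not_le] at hlt
        apply hd
        set k := R.natDegree with hkd
        -- the lower part
        have hR' : dg w (Polynomial.aeval g R.eraseLead) < dg w f := by
          rw [h1.poly g _ hg, h, hR]
          have h3 := R.eraseLead_natDegree_le
          have h4 : (R.eraseLead.natDegree : ℝ) < k := by
            have : R.eraseLead.natDegree < k := by omega
            exact_mod_cast this
          exact mul_lt_mul_of_pos_right h4 hg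
        have hsplit : Polynomial.aeval g R =
            R.leadingCoeff • g ^ k + Polynomial.aeval g R.eraseLead := by
          conv_lhs => rw [← R.eraseLead_add_C_mul_X_pow]
          rw [map_add, map_mul, Polynomial.aeval_C, map_pow, Polynomial.aeval_X,
            ← Algebra.smul_def, add_comm]
        refine ⟨- (c⁻¹ * R.leadingCoeff), k, by omega, ?_⟩
        have h5 : f - (-(c⁻¹ * R.leadingCoeff)) • g ^ k =
            c⁻¹ • ((c • f + Polynomial.aeval g R) - Polynomial.aeval g R.eraseLead) := by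
          rw [hsplit, smul_sub, smul_add, smul_add, smul_smul, smul_smul, inv_mul_cancel₀ hc,
            one_smul, neg_smul]
          abel
        rw [h5, h1.smul _ _ (inv_ne_zero hc)]
        exact (h1.sub_le _ _).trans_lt (max_lt hlt hR')
    · rw [h1.add_left _ _ (by rw [hcf]; exact h), hcf, max_eq_left h.le]

/-- the first part of (X5) -/
theorem xe_min {w : Fin 3 → ℝ} (h1 : DegFacts K w) (hc : ∀ n : ℕ, ChainFacts K n)
    (hor : OrStatement K w) (he : EFacts K w) (f g : A K 3) (hfg : f * g ≠ g * f)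
    (hlt : dg w g < dg w f) (hd : ¬ Dv w f g) (hE : dg w g < E w f g) :
    ∀ q ∈ B f g, 0 < dg w q → dg w g ≤ dg w q := by
  obtain ⟨-, hf, hg⟩ := he.pos f g hfg
  obtain ⟨q0, ⟨hq0, hq0p⟩, hmin⟩ := h1.minim {q : A K 3 | q ∈ B f g ∧ 0 < dg w q}
    ⟨g, Algebra.subset_adjoin (by simp), hg⟩
  suffices h : dg w g ≤ dg w q0 by
    intro q hq hqp
    exact h.trans (hmin q ⟨hq, hqp⟩)
  by_contra hlt2
  rw [not_le] at hlt2
  obtain ⟨P, rfl⟩ := ((hc 3).bmem f g q0).1 hq0
  by_cases hP : dX 0 P = 0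
  · obtain ⟨R, rfl⟩ := poly_of_dX_zero (hc 2) P hP
    rw [ev_aeval] at hlt2 hq0p
    rw [h1.poly g R hg] at hlt2 hq0p
    have h3 : R.natDegree ≠ 0 := by
      intro h0
      rw [h0] at hq0p
      simp at hq0p
    have h4 : (1 : ℝ) ≤ R.natDegree := by
      have : 1 ≤ R.natDegree := by omega
      exact_mod_cast this
    nlinarith
  · have hv := he.v2 f g P hfg (fun h => hP (he.inj2 f g _ hfg h))
    have hle := he.le (ev P f g) g
    obtain ⟨c, hcc⟩ := const_of_small h1 (hc 3) hor f g (dg w (ev P f g))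
      (fun q hq hqp => hmin q ⟨hq, hqp⟩) (dX 0 P) (by linarith)
    have h6 : evl2 ![f, g] (dX 0 P + (-c) • 1) = 0 := by
      rw [(hc 3).e2add, (hc 3).e2smul, hcc, evl2_one (hc 3)]
      simp
    have h7 := he.inj2 f g _ hfg h6
    have h8 : dX 0 P = c • 1 := by
      rw [neg_smul, ← sub_eq_add_neg, sub_eq_zero] at h7
      exact h7
    have hc0 : c ≠ 0 := by
      rintro rfl
      rw [zero_smul] at h8
      exact hP h8
    obtain ⟨R, hR⟩ := lin_of_dX_const (hc 2) P c h8
    rw [hR, ev_add, ev_smul, ev_x, ev_aeval, dg_lin h1 f g c R hc0 hf hg hd] at hlt2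
    have := le_max_left (dg w f) (dg w (Polynomial.aeval g R))
    linarith

/-- module XE -/
theorem xe (K : Type*) [Field K] (w : Fin 3 → ℝ) (_hw : Gen w) (h1 : DegFacts K w)
    (_h2 : DegbFacts K w) (hc : ∀ n : ℕ, ChainFacts K n) (hor : OrStatement K w)
    (_hmem : MemFacts K w) (he : EFacts K w) : XeFacts K w where
  xe0 f g q hfg hlt hd hE hq hq' := by
    have h3 := xe_min h1 hc hor he f g hfg hlt hd hE q hq
    apply h1.of_zero
    by_contra hne
    have := h3 (lt_of_le_of_ne (h1.nn q) (Ne.symm hne))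
    linarith
  xe1 f g q hfg hlt hd hE hq := by
    obtain ⟨P, rfl⟩ := ((hc 3).bmem f g q).1 hq
    by_cases hP : dX 0 P = 0
    · obtain ⟨R, rfl⟩ := poly_of_dX_zero (hc 2) P hP
      exact Or.inl ⟨0, R, by rw [ev_aeval, zero_smul, zero_add]⟩
    · have hv := he.v2 f g P hfg (fun h => hP (he.inj2 f g _ hfg h))
      have hle := he.le (ev P f g) g
      by_cases hsm : dg2 w (evl2 ![f, g] (dX 0 P)) < dg w g
      · left
        obtain ⟨c, hcc⟩ := const_of_small h1 (hc 3) hor f g (dg w g)
          (xe_min h1 hc hor he f g hfg hlt hd hE) (dX 0 P) hsm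
        have h6 : evl2 ![f, g] (dX 0 P + (-c) • 1) = 0 := by
          rw [(hc 3).e2add, (hc 3).e2smul, hcc, evl2_one (hc 3)]
          simp
        have h7 := he.inj2 f g _ hfg h6
        have h8 : dX 0 P = c • 1 := by
          rw [neg_smul, ← sub_eq_add_neg, sub_eq_zero] at h7
          exact h7
        obtain ⟨R, hR⟩ := lin_of_dX_const (hc 2) P c h8
        exact ⟨c, R, by rw [hR, ev_add, ev_smul, ev_x, ev_aeval]⟩
      · right
        rw [not_lt] at hsm
        constructor <;> linarith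
  xe2 f g q hfg hlt hd hE hq := by
    obtain ⟨P, rfl⟩ := ((hc 3).bmem f g q).1 hq
    by_cases hP : dX 1 P = 0
    · obtain ⟨R, rfl⟩ := poly_of_dX_zero' (hc 2) P hP
      exact Or.inl ⟨0, R, by rw [ev_aeval', zero_smul, zero_add]⟩
    · have hv := he.v2' f g P hfg (fun h => hP (he.inj2 f g _ hfg h))
      by_cases hsm : dg2 w (evl2 ![f, g] (dX 1 P)) < dg w g
      · left
        obtain ⟨c, hcc⟩ := const_of_small h1 (hc 3) hor f g (dg w g)
          (xe_min h1 hc hor he f g hfg hlt hd hE) (dX 1 P) hsm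
        have h6 : evl2 ![f, g] (dX 1 P + (-c) • 1) = 0 := by
          rw [(hc 3).e2add, (hc 3).e2smul, hcc, evl2_one (hc 3)]
          simp
        have h7 := he.inj2 f g _ hfg h6
        have h8 : dX 1 P = c • 1 := by
          rw [neg_smul, ← sub_eq_add_neg, sub_eq_zero] at h7
          exact h7
        obtain ⟨R, hR⟩ := lin_of_dX_const' (hc 2) P c h8
        exact ⟨c, R, by rw [hR, ev_add, ev_smul, ev_y, ev_aeval']⟩
      · right
        rw [not_lt] at hsm
        linarith

end

end Pool.Agent.Lib.MP_e1f7e2_al.FA.H41
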